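import Pool.Agent.W602.GT.KGen

/-!
MP_5ff3c6_ag, Q1: minimal models of varieties given by sums of few high powers, or by few monomials
with large exponents.
-/

set_option autoImplicit false

namespace Pool.Agent.Results.MP_5ff3c6_ag.HighPowerSystems

open Pool.Agent.W602.GT

/-- Let `V` be an irreducible component, of positive dimension, of a projective variety given by
sums of at most `s` high powers of linear forms, or by forms with at most `s` monomials and highly
divisible exponents. Either the canonical divisor of a resolution of `V` is pseudo-effective and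
`V` is of general type, or it is not pseudo-effective and `V` is birational to `B × ℙ¹` for some
`B`. -/
theorem result {n : ℕ} {ι : Type} {F : ι → MvPolynomial (Fin (n + 1)) ℂ} {s N : ℕ}
    (hF : HighPowers s N F) (hN : 1 ≤ N)
    (hsN : n * ((s + 1) * ((s - 1) * (s - 2) / 2)) ≤ N)
    {K : Type} [Field K] [Algebra ℂ K] {w : ℕ} (hw : 1 ≤ w) {y : Fin (n + 1) → K}
    (hy : SubVar F K w y) (hcomp : IsComponent F y) :
    (Psef ℂ K w (fun _ => False) ∧ GeneralType ℂ K w) ∨
      (¬ Psef ℂ K w (fun _ => False) ∧ Ruled ℂ K) :=
  general_psef_or_ruled hF hN hsN hw hy hcomp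

end Pool.Agent.Results.MP_5ff3c6_ag.HighPowerSystems
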