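import Pool.Agent.W619.Y.Main

/-! Abundance for quotients of products of a variety and curves. -/

set_option autoImplicit false
set_option linter.overlappingInstances false

universe u

open FF IntermediateField Pool.Agent.W619.PQ Pool.Agent.W619.PL Pool.Agent.W619.TW
  Pool.Agent.W619.X Pool.Agent.W619.Y

namespace Pool.Agent.Results.MP_5ff3c6_ag.MixedQuotients

/-- Let `Y` be a projective variety of dimension `d` with function field `M` (for instance a
point), `F i` (`i < n`) the function fields of curves `C i`, `Z` the product of `Y` and the curves,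
with function field `L` (`hsup`), `G` a finite group of automorphisms of `L` which permutes the
curves through `σ`, and `X` a projective manifold birational to `Z / G`. Assume `MixedPos`, for instance that the fixed locus of each `g ≠ 1` in `G` on the product of
the curves is empty or of codimension at least `7`. If `K_X` is
pseudo-effective, for instance nef, then `K_Y` is pseudo-effective and the curves are irrational;
and if `κ (Y) = ν (Y) = a`, then `κ (X) = ν (X) = a + h`, where `h` is the number of curves which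
are not elliptic. -/
theorem result {L : Type u} [Field L] [Algebra ℂ L] (d n : ℕ)
    (hn : Algebra.trdeg ℂ L = (d + n : ℕ))
    (M : IntermediateField ℂ L) [Algebra.EssFiniteType ℂ M] (hM : Algebra.trdeg ℂ M = d)
    (F : Fin n → IntermediateField ℂ L) (hF : ∀ i, IsFF ℂ (F i))
    (hsup : M ⊔ (⨆ i, F i) = ⊤)
    (G : Subgroup (L ≃ₐ[ℂ] L)) [Finite G] (σ : G →* Equiv.Perm (Fin n))
    (hσ : ∀ (g : G) i, ∀ z ∈ F i, (g : L ≃ₐ[ℂ] L) z ∈ F (σ g i))
    (h : MixedPos G σ F)
    (hpe : IsPsef ℂ (fixedField G) (d + n) (fun _ => False)) :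
    IsPsef ℂ M d (fun _ => False) ∧ (∀ i, ¬ ∃ t : F i, ℂ⟮t⟯ = ⊤) ∧
    ∀ a, KodTr ℂ M d a → NumLe ℂ M d (fun _ => False) a →
      KodTr ℂ (fixedField G) (d + n) (a + {i | ¬ IsElliptic (F i)}.ncard) ∧
      KodGe ℂ (fixedField G) (d + n) (fun _ => False) (a + {i | ¬ IsElliptic (F i)}.ncard) ∧
      NumLe ℂ (fixedField G) (d + n) (fun _ => False) (a + {i | ¬ IsElliptic (F i)}.ncard) := by
  obtain ⟨h1, h2⟩ := abM d n hn M hM F (alg_of_top M F hsup) G σ hσ h
  obtain ⟨h3, -, h4⟩ := h2 hsup
  obtain ⟨h5, h6⟩ := h4 hpe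
  exact ⟨h5, h6, fun a ha hb => ⟨(h1 h6 a ha).1, (h1 h6 a ha).2, h3 h6 a hb⟩⟩

end Pool.Agent.Results.MP_5ff3c6_ag.MixedQuotients
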