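import Pool.Agent.W619.X.Fin

/-! Kodaira dimension equals numerical dimension for minimal varieties birational to quotients of
products of curves. -/

set_option autoImplicit false
set_option linter.overlappingInstances false

universe u

open FF IntermediateField Pool.Agent.W619.PQ Pool.Agent.W619.PL Pool.Agent.W619.TW
  Pool.Agent.W619.X

namespace Pool.Agent.Results.MP_5ff3c6_ag.ProductQuotients

/-- Let `Z` be a projective variety of dimension `n` with function field `L`, `F i` (`i < n`) the
function fields of curves `C i` with rational maps `Z → C i` such that `Z → ∏ C i` is generically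
finite (`halg`), `G` a finite group of automorphisms of `L` preserving each `F i`, and `X` a
projective variety with canonical (for instance terminal) singularities which is birational to
`Z / G`. Assume `PosCond`, for instance that each `g ≠ 1` in `G` moves at least `7` of the curves,
or that each `g ≠ 1` moves at least `2` of the curves and each `C i / G` is irrational or has at
least `5` branch points. Let `h` be the number of curves of genus at least two. If the curves are
irrational, then `κ (X) ≥ h`. If `Z` is the product of the curves and `K_X` is pseudo-effective, in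
particular if `K_X` is nef, then no curve is rational and `κ (X) = ν (X) = h`:
`h⁰ (j m₀ K_X) ≥ j ^ h` for some `m₀` and all `j`, and `h⁰ (m K_X + A) ≤ C m ^ h` for each `A`. -/
theorem result {L : Type u} [Field L] [Algebra ℂ L] (n : ℕ) (hn : Algebra.trdeg ℂ L = n)
    (F : Fin n → IntermediateField ℂ L) (hF : ∀ i, IsFF ℂ (F i))
    (halg : Algebra.IsAlgebraic ↥(⨆ i, F i) L)
    (G : Subgroup (L ≃ₐ[ℂ] L)) [Finite G] (hst : ∀ i, ∀ g ∈ G, ∀ z ∈ F i, g z ∈ F i)
    (h : PosCond G F) :
    ((∀ i, ¬ ∃ t : F i, ℂ⟮t⟯ = ⊤) →
      KodGe ℂ (fixedField G) n (fun _ => False) {i | ¬ IsElliptic (F i)}.ncard) ∧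
    ((⨆ i, F i = ⊤) → IsPsef ℂ (fixedField G) n (fun _ => False) →
      (∀ i, ¬ ∃ t : F i, ℂ⟮t⟯ = ⊤) ∧
      KodGe ℂ (fixedField G) n (fun _ => False) {i | ¬ IsElliptic (F i)}.ncard ∧
      NumLe ℂ (fixedField G) n (fun _ => False) {i | ¬ IsElliptic (F i)}.ncard) := by
  have h1 := knC n hn F hF halg G hst h
  refine ⟨fun h2 => (h1.1 h2).1, fun hsup hpe => ?_⟩
  have h2 : ∀ i, ¬ ∃ t : F i, ℂ⟮t⟯ = ⊤ := fun i hi => (h1.2 hsup ⟨i, hi⟩).2.1 hpe
  exact ⟨h2, (h1.1 h2).1, (h1.1 h2).2 hsup⟩

end Pool.Agent.Results.MP_5ff3c6_ag.ProductQuotients
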